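import Pool.Agent.Lib.MP_b84ebc_coT.Level

set_option autoImplicit false

/-!
# The bounds with the exponent three tenths at every level
-/

namespace Pool.Agent.Lib.MP_b84ebc_co

open Real

/-- The bounds hold at every level. -/
theorem all_levelsT (k : ℕ) : ∃ C : ℝ, 0 ≤ C ∧ ∀ k' < k, ∀ X : ℕ,
    (F k' X : ℝ) ≤ psi * X + C * pw (X : ℝ) ∧ hh k' X ≤ C * pw (X : ℝ) ∧
      psi * X - C * pw (X : ℝ) ≤ (m k' X : ℝ) := by
  induction k with
  | zero => exact ⟨0, le_rfl, fun k' h => absurd h (Nat.not_lt_zero _)⟩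
  | succ k ih =>
    obtain ⟨C, hC0, hC⟩ := ih
    obtain ⟨A, hA0, hA⟩ := all_levels (k + 1)
    have hk0 : (0 : ℝ) ≤ k := Nat.cast_nonneg _
    have hA' : ∀ X : ℕ, psi * X - (C + k + 1 + A) * √(X : ℝ) ≤ (m k X : ℝ) := by
      intro X
      have h1 := (hA k (Nat.lt_succ_self k) X).2.2
      have h2 := Real.sqrt_nonneg (X : ℝ)
      have h3 : 0 ≤ (C + k + 1) * √(X : ℝ) := by positivity
      nlinarith
    have hN : ∀ b : ℕ, (N1 k b : ℝ) ≤
        psi * b + (C + k + 1 + A) * pw ((b + 1 : ℕ) : ℝ) + (C + k + 1 + A) := by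
      intro b
      have hb0 : (0 : ℝ) ≤ b := Nat.cast_nonneg _
      have hs : 1 ≤ pw ((b + 1 : ℕ) : ℝ) := one_le_pw (by push_cast; linarith)
      have hp := psi_pos
      have hp1 := psi_lt
      have hsup : (((Finset.range k).sup (fun k' => F k' (b + 1)) : ℕ) : ℝ) ≤
          psi * (b + 1) + C * pw ((b + 1 : ℕ) : ℝ) := by
        by_cases hk : (Finset.range k).Nonempty
        · obtain ⟨k', hk', he⟩ := Finset.exists_mem_eq_sup (Finset.range k) hk
            (fun k' => F k' (b + 1))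
          rw [he]
          have := (hC k' (Finset.mem_range.mp hk') (b + 1)).1
          push_cast at this ⊢
          exact this
        · rw [Finset.not_nonempty_iff_eq_empty] at hk
          rw [hk]
          simp only [Finset.sup_empty, Nat.bot_eq_zero, Nat.cast_zero]
          have : 0 ≤ C * pw ((b + 1 : ℕ) : ℝ) := mul_nonneg hC0 (by linarith)
          positivity
      unfold N1
      rw [Nat.cast_add]
      have h4 : 0 ≤ (k + 1 + A) * pw ((b + 1 : ℕ) : ℝ) := mul_nonneg (by positivity) (by linarith)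
      have h5 : (C + k + 1 + A) * pw ((b + 1 : ℕ) : ℝ) =
          C * pw ((b + 1 : ℕ) : ℝ) + (k + 1 + A) * pw ((b + 1 : ℕ) : ℝ) := by ring
      rw [h5]
      have h6 : psi * (b + 1) = psi * b + psi := by ring
      rw [h6] at hsup
      linarith
    obtain ⟨K, hK1, hK⟩ := levelT (k := k) (C := C + k + 1 + A) (by positivity) hA' hN
    refine ⟨C + 2 * K, by linarith, ?_⟩
    intro k' hk' X
    have hs : 0 ≤ pw (X : ℝ) := pw_nonneg (Nat.cast_nonneg _)
    have hCs : 0 ≤ C * pw (X : ℝ) := mul_nonneg hC0 hs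
    have hKs : 0 ≤ K * pw (X : ℝ) := mul_nonneg (by linarith) hs
    have e0 : (C + 2 * K) * pw (X : ℝ) = C * pw (X : ℝ) + 2 * (K * pw (X : ℝ)) := by ring
    rw [e0]
    rcases Nat.lt_succ_iff_lt_or_eq.mp hk' with h | h
    · obtain ⟨h1, h2, h3⟩ := hC k' h X
      refine ⟨by linarith, by linarith, by linarith⟩
    · subst h
      obtain ⟨h1, h2, h3⟩ := hK X
      have e : (m k' X : ℝ) = mu k' X + psi * X := by unfold mu; ring
      have e2 : (F k' X : ℝ) = hh k' X + m k' X := by unfold hh; ring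
      have e3 : 1999 / 2000 * K * pw (X : ℝ) = 1999 / 2000 * (K * pw (X : ℝ)) := by ring
      have e4 : 8658 / 10000 * K * pw (X : ℝ) = 8658 / 10000 * (K * pw (X : ℝ)) := by ring
      rw [e3] at h2
      rw [e4] at h3
      refine ⟨?_, by linarith, ?_⟩
      · rw [e2, e]; linarith
      · rw [e]; linarith

/-- Every P-position is on or above the golden line, up to the exponent three tenths. -/
theorem front_pow (k : ℕ) : ∃ K : ℝ, 0 < K ∧ ∀ B n : ℕ, IsP (k, B, B + n) →
    Real.goldenRatio * n ≤ B + K * ((B : ℝ) + 1) ^ (3 / 10 : ℝ) := by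
  obtain ⟨C, hC0, hC⟩ := all_levelsT (k + 1)
  refine ⟨2 * C + 1, by linarith, fun B n hP => ?_⟩
  have hptn : ptn k B = B + n := isP_iff_ptn.mp hP
  have hlt := diff_lt_F (k := k) (X := B + 1) (b := B) (by omega) (by omega)
  have hn1 : n < F k (B + 1) := by omega
  have hn2 : (n : ℝ) ≤ F k (B + 1) := by exact_mod_cast hn1.le
  have hF := (hC k (Nat.lt_succ_self k) (B + 1)).1
  have hphi := psi_mul_phi
  have hg0 := goldenRatio_pos
  have hg2 := goldenRatio_lt_two
  have hB0 : (0 : ℝ) ≤ B := Nat.cast_nonneg _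
  have hs : 1 ≤ pw ((B : ℝ) + 1) := one_le_pw (by linarith)
  push_cast at hF
  have h6 : (n : ℝ) ≤ psi * (B + 1) + C * pw ((B : ℝ) + 1) := hn2.trans hF
  have h7 : goldenRatio * n ≤ goldenRatio * (psi * (B + 1) + C * pw ((B : ℝ) + 1)) :=
    mul_le_mul_of_nonneg_left h6 hg0.le
  have h8 : 0 ≤ C * pw ((B : ℝ) + 1) := mul_nonneg hC0 (by linarith)
  have h9 : goldenRatio * (C * pw ((B : ℝ) + 1)) ≤ 2 * (C * pw ((B : ℝ) + 1)) :=
    mul_le_mul_of_nonneg_right hg2.le h8
  have h10 : goldenRatio * (psi * (B + 1)) = B + 1 := by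
    rw [← mul_assoc, mul_comm goldenRatio psi, hphi, one_mul]
  rw [mul_add, h10] at h7
  have h11 : ((B : ℝ) + 1) ^ (3 / 10 : ℝ) = pw ((B : ℝ) + 1) := rfl
  rw [h11]
  have h12 : (2 * C + 1) * pw ((B : ℝ) + 1) = 2 * (C * pw ((B : ℝ) + 1)) + pw ((B : ℝ) + 1) := by
    ring
  rw [h12]
  linarith

end Pool.Agent.Lib.MP_b84ebc_co
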