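import Pool.Agent.Lib.MP_b84ebc_coT.All

set_option autoImplicit false

/-!
# Double counting, exponent three tenths
-/

namespace Pool.Agent.Lib.MP_b84ebc_co

open Real Finset

theorem pw_le_sqrt {x : ℝ} (hx : 1 ≤ x) : pw x ≤ √x := by
  rw [Real.sqrt_eq_rpow]
  exact rpow_le_rpow_of_exponent_le hx (by norm_num)

theorem pw_four_le : pw 4 ≤ 2 := by
  refine (pw_le_sqrt (by norm_num)).trans ?_
  rw [show (4 : ℝ) = 2 ^ 2 by norm_num, Real.sqrt_sq (by norm_num)]

theorem mul_pw {x : ℝ} (hx : 0 < x) : x * pw x = x ^ (13 / 10 : ℝ) := by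
  unfold pw
  have h : x ^ (13 / 10 : ℝ) = x ^ (1 + 3 / 10 : ℝ) := by norm_num
  rw [h, rpow_add hx, rpow_one]

open Classical in
/-- The main theorem, for given constants. -/
theorem mainT (k : ℕ) : ∃ K : ℝ, 0 < K ∧ ∀ N L : ℕ, 1 ≤ L → L ≤ N →
    (((range N).filter (fun n => ¬ ∃ B, k ≤ B ∧ IsP (k, B, B + n) ∧
      |(B : ℝ) - goldenRatio * n| ≤ K * L)).card : ℝ) * L ≤ K * (N * pw (N : ℝ)) := by
  classical
  obtain ⟨C, hC0, hC⟩ := all_levelsT (k + 1)
  have hC' := hC k (Nat.lt_succ_self k)
  clear hC
  -- constants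
  obtain ⟨D, hD⟩ : ∃ D : ℝ, D = C + 1 := ⟨_, rfl⟩
  have hD1 : 1 ≤ D := by linarith
  obtain ⟨E, hE⟩ : ∃ E : ℝ, E = 16 * D ^ 2 := ⟨_, rfl⟩
  have hE16 : 16 ≤ E := by rw [hE]; nlinarith
  have hE0 : 0 ≤ E := by linarith
  obtain ⟨R, hR⟩ : ∃ R : ℝ, R = E + 7 := ⟨_, rfl⟩
  have hR0 : 0 ≤ R := by linarith
  have hk0 : (0 : ℝ) ≤ k := Nat.cast_nonneg k
  obtain ⟨K, hK⟩ : ∃ K : ℝ, K = k + 1 + 4 * D + E + 3 + C * R * pw R := ⟨_, rfl⟩
  have hRs := pw_nonneg hR0
  have hCR : 0 ≤ C * R * pw R := by positivity
  have hK1 : 1 ≤ K := by linarith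
  refine ⟨K, by linarith, ?_⟩
  intro N L hL hLN
  have hN1 : 1 ≤ N := le_trans hL hLN
  have hN1R : (1 : ℝ) ≤ N := by exact_mod_cast hN1
  have hN0R : (0 : ℝ) ≤ N := by linarith
  have hL1R : (1 : ℝ) ≤ L := by exact_mod_cast hL
  have hLNR : (L : ℝ) ≤ N := by exact_mod_cast hLN
  obtain ⟨P, hP⟩ : ∃ P : ℝ, P = pw (N : ℝ) := ⟨_, rfl⟩
  rw [← hP]
  have hsN1 : 1 ≤ P := by rw [hP]; exact one_le_pw hN1R
  have hsN0 : 0 ≤ P := by linarith
  have hsNle : P ≤ N := by rw [hP]; exact pw_le_self hN1R
  set BAD := (range N).filter (fun n => ¬ ∃ B, k ≤ B ∧ IsP (k, B, B + n) ∧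
      |(B : ℝ) - goldenRatio * n| ≤ K * L) with hBAD
  rcases lt_or_ge (L : ℝ) P with hsmall | hbig
  · -- trivial case
    have h1 : (BAD.card : ℝ) ≤ N := by
      have : BAD.card ≤ N := by
        have := card_filter_le (range N) (fun n => ¬ ∃ B, k ≤ B ∧ IsP (k, B, B + n) ∧
          |(B : ℝ) - goldenRatio * n| ≤ K * L)
        rw [card_range] at this
        exact this
      exact_mod_cast this
    have h2 : (BAD.card : ℝ) * L ≤ N * P :=
      mul_le_mul h1 hsmall.le (by linarith) (by linarith)
    have h3 : 0 ≤ (N : ℝ) * P := by positivity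
    nlinarith
  -- the set of late or missing differences
  set S := (range N).filter (fun n => ∀ B, IsP (k, B, B + n) → goldenRatio * n + K * L < B) with hS
  have hsub : BAD ⊆ (range k).image (fun B => ptn k B - B) ∪ S := by
    intro n hn
    rw [hBAD, mem_filter, mem_range] at hn
    obtain ⟨hnN, hno⟩ := hn
    rw [mem_union]
    by_cases hnS : n ∈ S
    · exact Or.inr hnS
    · left
      rw [hS, mem_filter, mem_range] at hnS
      push Not at hnS hno
      obtain ⟨B, hBP, hB⟩ := hnS hnN
      have hptn : ptn k B = B + n := isP_iff_ptn.mp hBP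
      rw [mem_image]
      refine ⟨B, ?_, by omega⟩
      rw [mem_range]
      by_contra hkB
      push Not at hkB
      have habs := hno B hkB hBP
      rw [lt_abs] at habs
      have hB2 : (B : ℝ) < goldenRatio * n - K * L := by
        rcases habs with h | h
        · linarith
        · linarith
      -- the lower bound for `B`
      have hlt := diff_lt_F (k := k) (X := B + 1) (b := B) (by omega) (by omega)
      have hn1 : n < F k (B + 1) := by omega
      have hn2 : (n : ℝ) ≤ F k (B + 1) := by exact_mod_cast hn1.le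
      have hF := (hC' (B + 1)).1
      have hgn := le_two_goldenRatio_mul hnN
      have hKL : 0 ≤ K * L := by positivity
      have hB3 : (B : ℝ) + 1 ≤ 4 * N := by linarith
      have hs : pw ((B + 1 : ℕ) : ℝ) ≤ 2 * P := by
        have h1 : pw ((B + 1 : ℕ) : ℝ) ≤ pw (4 * (N : ℝ)) := by
          apply pw_mono (Nat.cast_nonneg _)
          push_cast; linarith
        rw [pw_mul (by norm_num) hN0R, ← hP] at h1
        exact h1.trans (mul_le_mul_of_nonneg_right pw_four_le hsN0)
      have hphi := psi_mul_phi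
      have hg0 := goldenRatio_pos
      have hg2 := goldenRatio_lt_two
      have h5 : goldenRatio * n ≤ (B + 1) + 2 * (C * (2 * P)) := by
        have h6 : (n : ℝ) ≤ psi * (B + 1) + C * (2 * P) := by
          have := mul_le_mul_of_nonneg_left hs hC0
          push_cast at hF this
          linarith
        have h7 : goldenRatio * n ≤ goldenRatio * (psi * (B + 1) + C * (2 * P)) :=
          mul_le_mul_of_nonneg_left h6 hg0.le
        have h8 : 0 ≤ C * (2 * P) := by positivity
        have h9 : goldenRatio * (C * (2 * P)) ≤ 2 * (C * (2 * P)) :=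
          mul_le_mul_of_nonneg_right hg2.le h8
        have h10 : goldenRatio * (psi * (B + 1)) = B + 1 := by
          rw [← mul_assoc, mul_comm goldenRatio psi, hphi, one_mul]
        rw [mul_add, h10] at h7
        linarith
      have h11 : C * P ≤ C * L := mul_le_mul_of_nonneg_left hbig hC0
      have h12 : (4 * D + 1) * L ≤ K * L := by
        apply mul_le_mul_of_nonneg_right _ (by linarith)
        linarith
      have h13 : 4 * (C * L) + L ≤ (4 * D + 1) * L := by rw [hD]; nlinarith
      linarith
  -- the starting points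
  set a : ℕ → ℕ := fun n => ⌈goldenRatio * (n : ℝ)⌉₊ + ⌈E * P⌉₊ with ha
  have hg0 := goldenRatio_pos
  have hEP0 : 0 ≤ E * P := by positivity
  have ha1 : ∀ n : ℕ, goldenRatio * n + E * P ≤ a n := by
    intro n
    have h1 := Nat.le_ceil (goldenRatio * (n : ℝ))
    have h2 := Nat.le_ceil (E * P)
    rw [ha]; push_cast; linarith
  have ha2 : ∀ n : ℕ, (a n : ℝ) ≤ goldenRatio * n + E * P + 2 := by
    intro n
    have h1 := Nat.ceil_lt_add_one (show 0 ≤ goldenRatio * (n : ℝ) by positivity)
    have h2 := Nat.ceil_lt_add_one hEP0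
    rw [ha]; push_cast; linarith
  have hEs : E * P ≤ E * N := mul_le_mul_of_nonneg_left hsNle (by linarith)
  -- beyond `a n` the front is beyond `n`
  have hpE : pw (E + 4) ≤ 6 * D := by
    refine (pw_le_sqrt (by linarith)).trans ?_
    rw [Real.sqrt_le_left (by positivity)]
    rw [hE]; nlinarith
  have hfront : ∀ n < N, n < F k (a n) := by
    intro n hn
    have h1 := (hC' (a n)).2.2
    have h2 : (m k (a n) : ℝ) ≤ F k (a n) := by exact_mod_cast m_le_F k (a n)
    have hgn := le_two_goldenRatio_mul hn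
    have h3 : (a n : ℝ) ≤ (E + 4) * N := by
      have := ha2 n
      nlinarith
    have h4 : pw (a n : ℝ) ≤ 6 * D * P := by
      have h5 : pw (a n : ℝ) ≤ pw ((E + 4) * N) := pw_mono (Nat.cast_nonneg _) h3
      rw [pw_mul (by linarith) hN0R, ← hP] at h5
      exact h5.trans (mul_le_mul_of_nonneg_right hpE hsN0)
    have h5 : C * pw (a n : ℝ) ≤ D * (6 * D * P) := by
      apply mul_le_mul _ h4 (pw_nonneg (Nat.cast_nonneg _)) (by linarith)
      linarith
    have h6 : psi * (goldenRatio * n + E * P) ≤ psi * a n :=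
      mul_le_mul_of_nonneg_left (ha1 n) psi_pos.le
    have h7 : psi * (goldenRatio * n) = n := by rw [← mul_assoc, psi_mul_phi, one_mul]
    have h8 : 618 / 1000 * (E * P) ≤ psi * (E * P) :=
      mul_le_mul_of_nonneg_right lt_psi.le hEP0
    have h9 : (n : ℝ) < F k (a n) := by
      have h10 : 0 < D ^ 2 * P := by positivity
      rw [mul_add, h7] at h6
      have h11 : E * P = 16 * (D ^ 2 * P) := by rw [hE]; ring
      have h12 : D * (6 * D * P) = 6 * (D ^ 2 * P) := by ring
      rw [h11] at h8 h6
      rw [h12] at h5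
      linarith
    exact_mod_cast h9
  set T : ℕ := 2 * N + ⌈E * P⌉₊ + 1 + L with hT
  have haT : ∀ n < N, a n + L ≤ T := by
    intro n hn
    have h1 : ⌈goldenRatio * (n : ℝ)⌉₊ ≤ 2 * N := by
      apply Nat.ceil_le.mpr
      push_cast
      exact le_two_goldenRatio_mul hn
    rw [hT, ha]; simp only; omega
  have hTR : (T : ℝ) ≤ R * N := by
    have h2 := Nat.ceil_lt_add_one hEP0
    rw [hT, hR]; push_cast
    nlinarith
  -- double counting
  have hcount : (S.card : ℝ) * L ≤ ∑ x ∈ range T, hh k x := by
    have h1 : S.card * L = ∑ n ∈ S, ((range T).filter (fun x => a n ≤ x ∧ x < a n + L)).card := by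
      rw [← smul_eq_mul, ← sum_const]
      apply sum_congr rfl
      intro n hn
      have hnN : n < N := by
        rw [hS, mem_filter, mem_range] at hn; exact hn.1
      have e : (range T).filter (fun x => a n ≤ x ∧ x < a n + L) = Ico (a n) (a n + L) := by
        ext x
        simp only [mem_filter, mem_range, mem_Ico]
        have := haT n hnN
        omega
      rw [e, Nat.card_Ico]; omega
    have h2 : ∑ n ∈ S, ((range T).filter (fun x => a n ≤ x ∧ x < a n + L)).card =
        ∑ x ∈ range T, (S.filter (fun n => a n ≤ x ∧ x < a n + L)).card := by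
      simp only [card_filter]
      rw [sum_comm]
    have h3 : (S.card : ℝ) * L =
        ∑ x ∈ range T, ((S.filter (fun n => a n ≤ x ∧ x < a n + L)).card : ℝ) := by
      have h12 := h1.trans h2
      have := congrArg (fun t : ℕ => (t : ℝ)) h12
      push_cast at this
      exact this
    rw [h3]
    apply sum_le_sum
    intro x _
    apply card_le_hh
    · intro n hn
      rw [mem_filter, hS, mem_filter, mem_range] at hn
      exact lt_of_lt_of_le (hfront n hn.1.1) (F_mono k hn.2.1)
    · intro n hn b hb hP'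
      rw [mem_filter, hS, mem_filter, mem_range] at hn
      have h4 := hn.1.2 b hP'
      have h5 : (b : ℝ) < x := by exact_mod_cast hb
      have h6 : (x : ℝ) < a n + L := by exact_mod_cast hn.2.2
      have h7 := ha2 n
      have h8 : E * P ≤ E * L := mul_le_mul_of_nonneg_left hbig (by linarith)
      have h9 : (E + 3) * L ≤ K * L := by
        apply mul_le_mul_of_nonneg_right _ (by linarith)
        linarith
      nlinarith
  have hsum : ∑ x ∈ range T, hh k x ≤ C * R * pw R * (N * P) := by
    have h1 : ∀ x ∈ range T, hh k x ≤ C * pw (R * N) := by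
      intro x hx
      refine ((hC' x).2.1).trans ?_
      apply mul_le_mul_of_nonneg_left _ hC0
      apply pw_mono (Nat.cast_nonneg _)
      have : (x : ℝ) ≤ T := by exact_mod_cast (mem_range.mp hx).le
      linarith
    have h2 := sum_le_card_nsmul (range T) (fun x => hh k x) _ h1
    rw [card_range, nsmul_eq_mul] at h2
    refine h2.trans ?_
    rw [pw_mul hR0 hN0R, ← hP]
    have h3 : 0 ≤ C * (pw R * P) := by positivity
    calc (T : ℝ) * (C * (pw R * P)) ≤ (R * N) * (C * (pw R * P)) :=
          mul_le_mul_of_nonneg_right hTR h3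
      _ = _ := by ring
  have hcard : (BAD.card : ℝ) ≤ k + S.card := by
    have h1 := card_le_card hsub
    have h2 := card_union_le ((range k).image (fun B => ptn k B - B)) S
    have h3 : ((range k).image (fun B => ptn k B - B)).card ≤ k := by
      refine card_image_le.trans ?_
      rw [card_range]
    have : BAD.card ≤ k + S.card := by omega
    exact_mod_cast this
  have hNs : (N : ℝ) ≤ N * P := by nlinarith
  calc (BAD.card : ℝ) * L ≤ (k + S.card) * L := mul_le_mul_of_nonneg_right hcard (by linarith)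
    _ = k * L + S.card * L := by ring
    _ ≤ k * (N * P) + C * R * pw R * (N * P) := by
        have h1 : (k : ℝ) * L ≤ k * (N * P) :=
          mul_le_mul_of_nonneg_left (hLNR.trans hNs) hk0
        linarith
    _ ≤ K * (N * P) := by
        rw [hK]
        have : 0 ≤ (N : ℝ) * P := by positivity
        nlinarith

end Pool.Agent.Lib.MP_b84ebc_co
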