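import Pool.Agent.Lib.MP_b84ebc_co.Final

set_option autoImplicit false

/-!
# Bounds with the exponent three tenths
-/

namespace Pool.Agent.Lib.MP_b84ebc_co

open Real

/-- `x ^ (3 / 10)`. -/
noncomputable def pw (x : ℝ) : ℝ := x ^ (3 / 10 : ℝ)

theorem pw_nonneg {x : ℝ} (hx : 0 ≤ x) : 0 ≤ pw x := rpow_nonneg hx _

theorem pw_mono {x y : ℝ} (hx : 0 ≤ x) (h : x ≤ y) : pw x ≤ pw y :=
  rpow_le_rpow hx h (by norm_num)

theorem one_le_pw {x : ℝ} (hx : 1 ≤ x) : 1 ≤ pw x := one_le_rpow hx (by norm_num)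

theorem pw_mul {x y : ℝ} (hx : 0 ≤ x) (hy : 0 ≤ y) : pw (x * y) = pw x * pw y := mul_rpow hx hy

theorem pw_zero : pw 0 = 0 := zero_rpow (by norm_num)

theorem pw_le_self {x : ℝ} (hx : 1 ≤ x) : pw x ≤ x := by
  have h := rpow_le_rpow_of_exponent_le hx (show (3 / 10 : ℝ) ≤ 1 by norm_num)
  rwa [rpow_one] at h

theorem pw_ratio {x y : ℝ} (hy : 0 ≤ y) (hx : 0 ≤ x) (h : y ≤ 6185 / 10000 * x) :
    pw y ≤ 8658 / 10000 * pw x := by
  have h1 : pw y ≤ pw (6185 / 10000 * x) := pw_mono hy h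
  rw [pw_mul (by norm_num) hx] at h1
  have h2 : pw (6185 / 10000) ≤ 8658 / 10000 := by
    unfold pw
    have h3 : ((6185 / 10000 : ℝ)) ^ (3 / 10 : ℝ) = ((6185 / 10000 : ℝ) ^ (3 : ℕ)) ^ (1 / 10 : ℝ) := by
      rw [← rpow_natCast, ← rpow_mul (by norm_num)]
      norm_num
    have h4 : ((8658 / 10000 : ℝ) ^ (10 : ℕ)) ^ (1 / 10 : ℝ) = 8658 / 10000 := by
      rw [← rpow_natCast, ← rpow_mul (by norm_num)]
      norm_num
    have h5 : ((6185 / 10000 : ℝ) ^ (3 : ℕ)) ^ (1 / 10 : ℝ) ≤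
        ((8658 / 10000 : ℝ) ^ (10 : ℕ)) ^ (1 / 10 : ℝ) :=
      rpow_le_rpow (by positivity) (by norm_num) (by norm_num)
    rw [h3]
    exact h5.trans_eq h4
  exact h1.trans (mul_le_mul_of_nonneg_right h2 (pw_nonneg hx))

/-- The position one generation before is at most `6185 / 10000` of the position. -/
theorem gen_le {k : ℕ} {C : ℝ} (hC : 0 ≤ C)
    (hA : ∀ X : ℕ, psi * X - C * √(X : ℝ) ≤ (m k X : ℝ)) {X Y : ℕ} (h1 : Y + F k Y ≤ X)
    (hX : 2500 * (C + 1) ≤ √(X : ℝ)) : ((Y + 1 : ℕ) : ℝ) ≤ 6185 / 10000 * X := by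
  have hX0 : (0 : ℝ) ≤ X := Nat.cast_nonneg X
  have hY0 : (0 : ℝ) ≤ Y := Nat.cast_nonneg Y
  have a1 : (Y : ℝ) + F k Y ≤ X := by exact_mod_cast h1
  have a2 : (m k Y : ℝ) ≤ F k Y := by exact_mod_cast m_le_F k Y
  have a3 := hA Y
  have hYX : (Y : ℝ) ≤ X := by
    have : (0 : ℝ) ≤ F k Y := Nat.cast_nonneg _
    linarith
  have a4 : √(Y : ℝ) ≤ √(X : ℝ) := Real.sqrt_le_sqrt hYX
  have a5 : C * √(Y : ℝ) ≤ C * √(X : ℝ) := mul_le_mul_of_nonneg_left a4 hC
  have a6 : (1 + psi) * Y ≤ X + C * √(X : ℝ) := by linarith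
  have hp := psi_pos
  have hp1 := psi_lt
  have hpsq := psi_sq
  have a7 : psi * ((1 + psi) * Y) ≤ psi * (X + C * √(X : ℝ)) := mul_le_mul_of_nonneg_left a6 hp.le
  have a8 : psi * ((1 + psi) * Y) = Y := by
    have : psi * ((1 + psi) * Y) = (psi + psi ^ 2) * Y := by ring
    rw [this, hpsq]
    ring
  rw [a8] at a7
  have hs0 := Real.sqrt_nonneg (X : ℝ)
  have a9 : psi * (X + C * √(X : ℝ)) ≤ 6181 / 10000 * (X + C * √(X : ℝ)) :=
    mul_le_mul_of_nonneg_right hp1.le (by positivity)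
  have hsq : √(X : ℝ) * √(X : ℝ) = X := Real.mul_self_sqrt hX0
  have a10 : 2500 * (C + 1) * √(X : ℝ) ≤ X := by
    calc 2500 * (C + 1) * √(X : ℝ) ≤ √(X : ℝ) * √(X : ℝ) := mul_le_mul_of_nonneg_right hX hs0
      _ = X := hsq
  have a11 : 1 ≤ √(X : ℝ) := by nlinarith
  push_cast
  nlinarith

/-- The main induction, for one level. -/
theorem levelT {k : ℕ} {C : ℝ} (hC : 0 ≤ C)
    (hA : ∀ X : ℕ, psi * X - C * √(X : ℝ) ≤ (m k X : ℝ))
    (hN : ∀ b : ℕ, (N1 k b : ℝ) ≤ psi * b + C * pw ((b + 1 : ℕ) : ℝ) + C) :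
    ∃ K : ℝ, 1 ≤ K ∧ ∀ X : ℕ, hh k X ≤ K * pw (X : ℝ) ∧
      -mu k X ≤ 1999 / 2000 * K * pw (X : ℝ) ∧ mu k X ≤ 8658 / 10000 * K * pw (X : ℝ) := by
  obtain ⟨T, hT⟩ : ∃ T : ℕ, T = ⌈(2500 * (C + 1)) ^ 2⌉₊ + 4 := ⟨_, rfl⟩
  have hT3 : 3 < T := by omega
  have hTR : (2500 * (C + 1)) ^ 2 ≤ (T : ℝ) := by
    have h1 := Nat.le_ceil ((2500 * (C + 1)) ^ 2)
    rw [hT]
    push_cast
    linarith
  clear hT
  have hT0 : (0 : ℝ) ≤ T := Nat.cast_nonneg _
  have hF0 : (0 : ℝ) ≤ F k T := Nat.cast_nonneg _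
  obtain ⟨K, hK⟩ : ∃ K : ℝ, K = 10000 + F k T + 2 * T + 2000 * (2 * C + 1) := ⟨_, rfl⟩
  have hK1 : 10000 ≤ K := by rw [hK]; linarith
  have hKF : (F k T : ℝ) ≤ K := by rw [hK]; linarith
  have hKT : 2 * (T : ℝ) ≤ K := by rw [hK]; linarith
  have hKC : 2000 * (2 * C + 1) ≤ K := by rw [hK]; linarith
  clear hK
  refine ⟨K, by linarith, ?_⟩
  intro X
  induction X using Nat.strong_induction_on with
  | _ X ih =>
    have hX0 : (0 : ℝ) ≤ X := Nat.cast_nonneg X
    rcases Nat.eq_zero_or_pos X with rfl | hpos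
    · have h0 : pw ((0 : ℕ) : ℝ) = 0 := by rw [Nat.cast_zero]; exact pw_zero
      rw [h0]
      simp [hh, mu, m_zero, F_zero]
    have hX1 : (1 : ℝ) ≤ X := by exact_mod_cast hpos
    have hs1 : 1 ≤ pw (X : ℝ) := one_le_pw hX1
    have hK0 : 0 < K := by linarith
    obtain ⟨q, hq⟩ : ∃ q : ℝ, q = K * pw (X : ℝ) := ⟨_, rfl⟩
    have hKs : K ≤ q := by rw [hq]; nlinarith
    have hq0 : 0 ≤ q := hK0.le.trans hKs
    have e1 : 1999 / 2000 * K * pw (X : ℝ) = 1999 / 2000 * q := by rw [hq]; ring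
    have e2 : 8658 / 10000 * K * pw (X : ℝ) = 8658 / 10000 * q := by rw [hq]; ring
    rw [e1, e2]
    rcases lt_or_ge X T with hlt | hge
    · -- small values
      have hlt' : (X : ℝ) ≤ T := by exact_mod_cast hlt.le
      have hm1 : (m k X : ℝ) ≤ X := by
        have := card_ups_add k X
        have : m k X ≤ X := by omega
        exact_mod_cast this
      have hm0 : (0 : ℝ) ≤ m k X := Nat.cast_nonneg _
      have hFm : (F k X : ℝ) ≤ F k T := by exact_mod_cast F_mono k hlt.le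
      have hp := psi_pos
      have hp1 := psi_lt
      have hpX : psi * X ≤ X := by nlinarith
      have hpX0 : 0 ≤ psi * X := by positivity
      refine ⟨?_, ?_, ?_⟩
      · rw [← hq]; unfold hh; linarith
      · unfold mu; linarith
      · unfold mu; linarith
    · -- large values
      have hgeR : (T : ℝ) ≤ X := by exact_mod_cast hge
      have hsX : 2500 * (C + 1) ≤ √(X : ℝ) := by
        rw [Real.le_sqrt' (by positivity)]
        linarith
      obtain ⟨Y, hY1, hY2, hY3⟩ := exists_gen k X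
      have hYX : Y < X := by omega
      have hYX1 : Y + 1 < X := by omega
      obtain ⟨ihY1, ihY2, ihY3⟩ := ih Y hYX
      obtain ⟨ihh, -, -⟩ := ih (Y + 1) hYX1
      have hgen := gen_le hC hA hY1 hsX
      have hr1 : pw ((Y + 1 : ℕ) : ℝ) ≤ 8658 / 10000 * pw (X : ℝ) :=
        pw_ratio (Nat.cast_nonneg _) hX0 hgen
      have hr0 : pw (Y : ℝ) ≤ 8658 / 10000 * pw (X : ℝ) := by
        refine (pw_mono (Nat.cast_nonneg _) ?_).trans hr1
        push_cast
        linarith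
      have hp := psi_pos
      have hp1 := psi_lt
      have hp2 := lt_psi
      have hpsq := psi_sq
      have hhY : hh k (Y + 1) ≤ 8658 / 10000 * q := by
        refine ihh.trans ?_
        have h1 := mul_le_mul_of_nonneg_left hr1 hK0.le
        calc K * pw ((Y + 1 : ℕ) : ℝ) ≤ K * (8658 / 10000 * pw (X : ℝ)) := h1
          _ = 8658 / 10000 * q := by rw [hq]; ring
      have hKY : K * pw (Y : ℝ) ≤ 8658 / 10000 * q := by
        calc K * pw (Y : ℝ) ≤ K * (8658 / 10000 * pw (X : ℝ)) := mul_le_mul_of_nonneg_left hr0 hK0.le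
          _ = 8658 / 10000 * q := by rw [hq]; ring
      have hmuY : mu k Y ≤ 8658 / 10000 * (8658 / 10000 * q) := by
        have h1 : 8658 / 10000 * K * pw (Y : ℝ) = 8658 / 10000 * (K * pw (Y : ℝ)) := by ring
        linarith
      have hnmuY : -mu k Y ≤ 1999 / 2000 * (8658 / 10000 * q) := by
        have h1 : 1999 / 2000 * K * pw (Y : ℝ) = 1999 / 2000 * (K * pw (Y : ℝ)) := by ring
        linarith
      refine ⟨?_, ?_, ?_⟩
      · -- the number of unused differences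
        obtain ⟨Z, rfl⟩ : ∃ Z, X = Z + 1 := ⟨X - 1, by omega⟩
        obtain ⟨ihZ1, ihZ2, -⟩ := ih Z (by omega)
        have hsZ : pw (Z : ℝ) ≤ pw ((Z + 1 : ℕ) : ℝ) := by
          apply pw_mono (Nat.cast_nonneg _)
          push_cast; linarith
        have hKZ : K * pw (Z : ℝ) ≤ K * pw ((Z + 1 : ℕ) : ℝ) := mul_le_mul_of_nonneg_left hsZ hK0.le
        rcases hh_step k Z with h | h
        · exact h.trans (ihZ1.trans hKZ)
        · have hNZ := hN Z
          have e : (m k Z : ℝ) = mu k Z + psi * Z := by unfold mu; ring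
          rw [e] at h
          have hCs : (C + 1) ≤ (C + 1) * pw ((Z + 1 : ℕ) : ℝ) := by
            nlinarith
          have hKC' : 2000 * (2 * C + 1) * pw ((Z + 1 : ℕ) : ℝ) ≤ K * pw ((Z + 1 : ℕ) : ℝ) :=
            mul_le_mul_of_nonneg_right hKC (by linarith)
          have h5 : 1999 / 2000 * K * pw (Z : ℝ) ≤ 1999 / 2000 * (K * pw ((Z + 1 : ℕ) : ℝ)) := by
            linarith
          nlinarith
      · -- lower bound for the discrepancy
        have h := mu_lower hY1 hY2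
        have b1 : psi * mu k Y ≤ psi * (8658 / 10000 * (8658 / 10000 * q)) :=
          mul_le_mul_of_nonneg_left hmuY hp.le
        have b2 : psi * (1 + hh k (Y + 1)) ≤ psi * (1 + 8658 / 10000 * q) :=
          mul_le_mul_of_nonneg_left (by linarith) hp.le
        have b3 : psi * (8658 / 10000 * (8658 / 10000 * q) + (1 + 8658 / 10000 * q)) ≤
            6181 / 10000 * (8658 / 10000 * (8658 / 10000 * q) + (1 + 8658 / 10000 * q)) :=
          mul_le_mul_of_nonneg_right hp1.le (by linarith)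
        rw [mul_add] at b3
        linarith
      · -- upper bound for the discrepancy
        have h := mu_upper hY1 hY2
        have b1 : psi * (-mu k Y) ≤ psi * (1999 / 2000 * (8658 / 10000 * q)) :=
          mul_le_mul_of_nonneg_left hnmuY hp.le
        have b2 : psi ^ 2 * (1 + hh k (Y + 1)) ≤ psi ^ 2 * (1 + 8658 / 10000 * q) :=
          mul_le_mul_of_nonneg_left (by linarith) (sq_nonneg _)
        rw [hpsq] at b2
        have b3 : 618 / 1000 * q ≤ psi * q := mul_le_mul_of_nonneg_right hp2.le hq0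
        rw [hpsq] at h
        have b4 : psi * (1999 / 2000 * (8658 / 10000 * q)) =
            1999 / 2000 * (8658 / 10000) * (psi * q) := by ring
        have b5 : (1 - psi) * (1 + 8658 / 10000 * q) =
            1 + 8658 / 10000 * q - psi - 8658 / 10000 * (psi * q) := by ring
        rw [b4] at b1
        rw [b5] at b2
        linarith

end Pool.Agent.Lib.MP_b84ebc_co
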