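import Pool.Agent.Lib.MP_b84ebc_coT.Count

set_option autoImplicit false

namespace Pool.Agent.Lib.MP_b84ebc_co

open Real Finset

theorem main_pow (k : ℕ) : ∃ K : ℝ, 0 < K ∧ ∀ N L : ℕ, 1 ≤ L → L ≤ N →
    ({n : ℕ | n < N ∧ ¬ ∃ B, k ≤ B ∧ IsP (k, B, B + n) ∧
      |(B : ℝ) - Real.goldenRatio * n| ≤ K * L}.ncard : ℝ) * L ≤ K * (N : ℝ) ^ (13 / 10 : ℝ) := by
  classical
  obtain ⟨K, hK, h⟩ := mainT k
  refine ⟨K, hK, ?_⟩
  intro N L h1 h2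
  have h3 := h N L h1 h2
  have hN : (0 : ℝ) < N := by
    have : 0 < N := by omega
    exact_mod_cast this
  rw [mul_pw hN] at h3
  have e : {n : ℕ | n < N ∧ ¬ ∃ B, k ≤ B ∧ IsP (k, B, B + n) ∧
      |(B : ℝ) - Real.goldenRatio * n| ≤ K * L} =
      (((Finset.range N).filter (fun n => ¬ ∃ B, k ≤ B ∧ IsP (k, B, B + n) ∧
      |(B : ℝ) - Real.goldenRatio * n| ≤ K * L) : Finset ℕ) : Set ℕ) := by
    ext n
    simp only [Set.mem_setOf_eq, Finset.coe_filter, Finset.mem_range]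
  rw [e, Set.ncard_coe_finset]
  convert h3 using 4

end Pool.Agent.Lib.MP_b84ebc_co
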